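import Mathlib

/-! Definitions: trigraphs, reduction sequences, reduced bandwidth, shallow minors. -/

namespace Pool.Agent.R39.RB

/-- A trigraph whose vertices are the elements of `verts`, with black edges and red edges. -/
structure Trigraph (V : Type) where
  /-- the current vertices -/
  verts : Finset V
  /-- the black edges -/
  black : SimpleGraph V
  /-- the red edges -/
  red : SimpleGraph V

/-- A graph, viewed as a trigraph in which all edges are black. -/
def ofGraph {V : Type} [Fintype V] (G : SimpleGraph V) : Trigraph V := ⟨Finset.univ, G, ⊥⟩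

/-- `T'` arises from `T` by contracting two vertices `u` and `v` into one vertex, which is again
called `u`: for every other vertex `x`, `ux` is black if `ux` and `vx` were both black, absent if
both were absent, and red otherwise. All other pairs keep their status. -/
def Contracts {V : Type} [DecidableEq V] (T T' : Trigraph V) : Prop :=
  ∃ u ∈ T.verts, ∃ v ∈ T.verts, u ≠ v ∧ T'.verts = T.verts.erase v ∧
    (∀ x ∈ T'.verts, ∀ y ∈ T'.verts, x ≠ u → y ≠ u →
      (T'.black.Adj x y ↔ T.black.Adj x y) ∧ (T'.red.Adj x y ↔ T.red.Adj x y)) ∧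
    ∀ x ∈ T'.verts, x ≠ u →
      (T'.black.Adj u x ↔ T.black.Adj u x ∧ T.black.Adj v x) ∧
      (T'.red.Adj u x ↔ ¬ (T.black.Adj u x ∧ T.black.Adj v x) ∧
        (T.black.Adj u x ∨ T.red.Adj u x ∨ T.black.Adj v x ∨ T.red.Adj v x))

/-- The red graph of `T` has bandwidth at most `k`. -/
def RedBandwidthLE {V : Type} (T : Trigraph V) (k : ℕ) : Prop :=
  ∃ f : V → ℕ, Set.BijOn f T.verts (Set.Icc 1 T.verts.card) ∧
    ∀ x ∈ T.verts, ∀ y ∈ T.verts, T.red.Adj x y → f x ≤ f y + k

/-- `T` can be reduced to at most one vertex by successive contractions such that all red graphs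
of the sequence (including that of `T`) have bandwidth at most `k`. -/
inductive Reducible {V : Type} [DecidableEq V] (k : ℕ) : Trigraph V → Prop
  | last (T : Trigraph V) (h1 : T.verts.card ≤ 1) (hb : RedBandwidthLE T k) : Reducible k T
  | step (T T' : Trigraph V) (hb : RedBandwidthLE T k) (hc : Contracts T T')
      (h : Reducible k T') : Reducible k T

/-- `H` is an `r`-shallow minor of `G`: there are pairwise disjoint branch sets `B w`, each inducing
a connected subgraph of radius at most `r` (around some `c`), such that adjacent vertices of `H`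
have branch sets joined by an edge of `G`. -/
def IsShallowMinor {V W : Type} (r : ℕ) (G : SimpleGraph V) (H : SimpleGraph W) : Prop :=
  ∃ B : W → Set V, (∀ w w', w ≠ w' → Disjoint (B w) (B w')) ∧
    (∀ w, ∃ c ∈ B w, ∀ x ∈ B w, ∃ p : G.Walk c x, p.length ≤ r ∧ ∀ z ∈ p.support, z ∈ B w) ∧
    ∀ w w', H.Adj w w' → ∃ x ∈ B w, ∃ y ∈ B w', G.Adj x y

/-- A class of finite graphs (up to isomorphism every finite graph lives on some `Fin n`). -/
abbrev GraphClass : Type := Set (Σ n : ℕ, SimpleGraph (Fin n))

/-- The class has bounded reduced bandwidth. -/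
def BoundedReducedBandwidth (C : GraphClass) : Prop :=
  ∃ k : ℕ, ∀ G ∈ C, Reducible k (ofGraph G.2)

/-- The class is monotone, i.e. closed under taking subgraphs. -/
def IsMonotoneClass (C : GraphClass) : Prop :=
  ∀ G ∈ C, ∀ H : Σ n : ℕ, SimpleGraph (Fin n), H.2.IsContained G.2 → H ∈ C

end Pool.Agent.R39.RB
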