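import Mathlib
import Pool.Agent.R39.RB.Defs

/-! Bounded reduced bandwidth and no large biclique imply linear expansion: the core argument. -/

namespace Pool.Agent.R39.RB

open Finset

variable {V : Type} [DecidableEq V]

/-- `Near T d x y`: `y` can be reached from `x` by at most `d` red edges of `T`. -/
inductive Near (T : Trigraph V) : ℕ → V → V → Prop
  | refl (d : ℕ) (x : V) (hx : x ∈ T.verts) : Near T d x x
  | step (d : ℕ) (x y z : V) (h : Near T d x y) (hz : z ∈ T.verts) (hr : T.red.Adj y z) :
      Near T (d + 1) x z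

theorem Near.mem_right {T : Trigraph V} {d : ℕ} {x y : V} (h : Near T d x y) : y ∈ T.verts := by
  cases h with
  | refl d x hx => exact hx
  | step d x y z h hz hr => exact hz

theorem Near.mem_left {T : Trigraph V} {d : ℕ} {x y : V} (h : Near T d x y) : x ∈ T.verts := by
  induction h with
  | refl d x hx => exact hx
  | step d x y z h hz hr ih => exact ih

theorem Near.succ {T : Trigraph V} {d : ℕ} {x y : V} (h : Near T d x y) : Near T (d + 1) x y := by
  induction h with
  | refl d x hx => exact Near.refl _ x hx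
  | step d x y z h hz hr ih => exact Near.step _ x y z ih hz hr

theorem Near.mono {T : Trigraph V} {d e : ℕ} {x y : V} (h : Near T d x y) (hde : d ≤ e) :
    Near T e x y := by
  induction hde with
  | refl => exact h
  | step _ ih => exact ih.succ

theorem Near.trans {T : Trigraph V} {a b : ℕ} {x y z : V} (h1 : Near T a x y)
    (h2 : Near T b y z) : Near T (a + b) x z := by
  induction h2 with
  | refl d y hy => exact h1.mono (Nat.le_add_right _ _)
  | step d y z w h hz hr ih => exact Near.step _ _ _ _ (ih h1) hz hr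

/-- Balls in a red graph of bandwidth at most `k` grow linearly. -/
theorem ball_card {T : Trigraph V} {k : ℕ} (hb : RedBandwidthLE T k) (d : ℕ) (x : V)
    [DecidablePred (fun y => Near T d x y)] :
    (T.verts.filter (fun y => Near T d x y)).card ≤ 2 * k * d + 1 := by
  obtain ⟨f, hf, hfk⟩ := hb
  have hrange : ∀ d x y, Near T d x y → f y ≤ f x + k * d ∧ f x ≤ f y + k * d := by
    intro d x y h
    induction h with
    | refl d x hx => omega
    | step d x y z h hz hr ih =>
      have h1 := hfk y h.mem_right z hz hr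
      have h2 := hfk z hz y h.mem_right hr.symm
      have h3 : k * (d + 1) = k * d + k := by ring
      omega
  have hcard := Finset.card_le_card_of_injOn (s := T.verts.filter (fun y => Near T d x y))
    (t := Finset.Icc (f x - k * d) (f x + k * d)) f ?_ ?_
  · rw [Nat.card_Icc] at hcard
    have h3 : 2 * k * d = k * d + k * d := by ring
    omega
  · intro y hy
    have h := (Finset.mem_filter.1 hy).2
    have := hrange d x y h
    rw [Finset.mem_coe, Finset.mem_Icc]
    omega
  · intro y hy z hz hyz
    rw [Finset.mem_coe] at hy hz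
    exact hf.injOn (Finset.mem_filter.1 hy).1 (Finset.mem_filter.1 hz).1 hyz

/-- `π` sends every vertex of `G` to the vertex of `T` into which it has been contracted. -/
structure Inv (G : SimpleGraph V) (T : Trigraph V) (π : V → V) : Prop where
  mem : ∀ z, π z ∈ T.verts
  black : ∀ a b, T.black.Adj (π a) (π b) → G.Adj a b
  edge : ∀ a b, G.Adj a b → π a ≠ π b → T.black.Adj (π a) (π b) ∨ T.red.Adj (π a) (π b)

/-- The data of a contraction of `u`, `v`. -/
structure IsContr (T T' : Trigraph V) (u v : V) : Prop where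
  hu : u ∈ T.verts
  hv : v ∈ T.verts
  huv : u ≠ v
  verts : T'.verts = T.verts.erase v
  keep : ∀ x ∈ T'.verts, ∀ y ∈ T'.verts, x ≠ u → y ≠ u →
      (T'.black.Adj x y ↔ T.black.Adj x y) ∧ (T'.red.Adj x y ↔ T.red.Adj x y)
  new : ∀ x ∈ T'.verts, x ≠ u →
      (T'.black.Adj u x ↔ T.black.Adj u x ∧ T.black.Adj v x) ∧
      (T'.red.Adj u x ↔ ¬ (T.black.Adj u x ∧ T.black.Adj v x) ∧
        (T.black.Adj u x ∨ T.red.Adj u x ∨ T.black.Adj v x ∨ T.red.Adj v x))

theorem Contracts.exists {T T' : Trigraph V} (h : Contracts T T') : ∃ u v, IsContr T T' u v := by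
  obtain ⟨u, hu, v, hv, huv, h1, h2, h3⟩ := h
  exact ⟨u, v, hu, hv, huv, h1, h2, h3⟩

section step

variable {G : SimpleGraph V} {T T' : Trigraph V} {u v : V} {π : V → V}

theorem IsContr.u_mem (hc : IsContr T T' u v) : u ∈ T'.verts := by
  rw [hc.verts]
  exact Finset.mem_erase.2 ⟨hc.huv, hc.hu⟩

theorem IsContr.mem_old (hc : IsContr T T' u v) {x : V} (hx : x ∈ T'.verts) : x ∈ T.verts := by
  rw [hc.verts] at hx
  exact Finset.mem_of_mem_erase hx

theorem IsContr.inv (hc : IsContr T T' u v) (hi : Inv G T π) :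
    Inv G T' (fun z => if π z = v then u else π z) := by
  have hmem : ∀ z, (if π z = v then u else π z) ∈ T'.verts := by
    intro z
    by_cases h : π z = v
    · rw [if_pos h]
      exact hc.u_mem
    · rw [if_neg h, hc.verts]
      exact Finset.mem_erase.2 ⟨h, hi.mem z⟩
  have cases : ∀ z, (π z = u ∨ π z = v) ∧ (if π z = v then u else π z) = u ∨
      (π z ≠ u ∧ π z ≠ v) ∧ (if π z = v then u else π z) = π z := by
    intro z
    by_cases h : π z = v
    · exact Or.inl ⟨Or.inr h, if_pos h⟩
    · by_cases h' : π z = u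
      · refine Or.inl ⟨Or.inl h', ?_⟩
        rw [if_neg h, h']
      · exact Or.inr ⟨⟨h', h⟩, if_neg h⟩
  refine ⟨hmem, ?_, ?_⟩
  · intro a b hab
    have ha := hmem a
    have hb := hmem b
    rcases cases a with ⟨h1, e1⟩ | ⟨h1, e1⟩ <;> rcases cases b with ⟨h2, e2⟩ | ⟨h2, e2⟩
    · simp only [e1, e2] at hab
      exact absurd hab (T'.black.loopless.irrefl _)
    · simp only [e1, e2] at hab ha hb
      have := ((hc.new _ hb h2.1).1.1 hab)
      rcases h1 with h1 | h1
      · rw [← h1] at this
        exact hi.black a b this.1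
      · rw [← h1] at this
        exact hi.black a b this.2
    · simp only [e1, e2] at hab ha hb
      have := ((hc.new _ ha h1.1).1.1 hab.symm)
      rcases h2 with h2 | h2
      · rw [← h2] at this
        exact (hi.black b a this.1).symm
      · rw [← h2] at this
        exact (hi.black b a this.2).symm
    · simp only [e1, e2] at hab ha hb
      exact hi.black a b ((hc.keep _ ha _ hb h1.1 h2.1).1.1 hab)
  · intro a b hab hne
    have ha := hmem a
    have hb := hmem b
    rcases cases a with ⟨h1, e1⟩ | ⟨h1, e1⟩ <;> rcases cases b with ⟨h2, e2⟩ | ⟨h2, e2⟩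
    · simp only [e1, e2] at hne
      exact absurd rfl hne
    · simp only [e1, e2] at hne ha hb ⊢
      by_cases hbl : T'.black.Adj u (π b)
      · exact Or.inl hbl
      · refine Or.inr ?_
        rw [(hc.new _ hb h2.1).2]
        rw [(hc.new _ hb h2.1).1] at hbl
        refine ⟨hbl, ?_⟩
        rcases h1 with h1 | h1
        · have := hi.edge a b hab (by rw [h1]; exact h2.1.symm)
          rw [h1] at this
          tauto
        · have := hi.edge a b hab (by rw [h1]; exact h2.2.symm)
          rw [h1] at this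
          tauto
    · simp only [e1, e2] at hne ha hb ⊢
      rw [T'.black.adj_comm, T'.red.adj_comm]
      by_cases hbl : T'.black.Adj u (π a)
      · exact Or.inl hbl
      · refine Or.inr ?_
        rw [(hc.new _ ha h1.1).2]
        rw [(hc.new _ ha h1.1).1] at hbl
        refine ⟨hbl, ?_⟩
        rcases h2 with h2 | h2
        · have := hi.edge b a hab.symm (by rw [h2]; exact h1.1.symm)
          rw [h2] at this
          tauto
        · have := hi.edge b a hab.symm (by rw [h2]; exact h1.2.symm)
          rw [h2] at this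
          tauto
    · simp only [e1, e2] at hne ha hb ⊢
      rw [(hc.keep _ ha _ hb h1.1 h2.1).1, (hc.keep _ ha _ hb h1.1 h2.1).2]
      exact hi.edge a b hab hne

/-- How red balls change under a contraction. -/
theorem IsContr.near (hc : IsContr T T' u v) {d : ℕ} {x y : V} (h : Near T' d x y) :
    (y ≠ u ∧ Near T d x y) ∨ y = u ∨
      (y ≠ u ∧ ∃ p ∈ T'.verts, T'.red.Adj u p ∧ Near T d p y) := by
  induction h with
  | refl d x hx =>
    by_cases hxu : x = u
    · exact Or.inr (Or.inl hxu)
    · exact Or.inl ⟨hxu, Near.refl _ _ (hc.mem_old hx)⟩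
  | step d x y z h hz hr ih =>
    by_cases hzu : z = u
    · exact Or.inr (Or.inl hzu)
    · rcases ih with ⟨hyu, hn⟩ | hyu | ⟨hyu, p, hp, hup, hn⟩
      · refine Or.inl ⟨hzu, Near.step _ _ _ _ hn (hc.mem_old hz) ?_⟩
        exact (hc.keep y h.mem_right z hz hyu hzu).2.1 hr
      · subst hyu
        exact Or.inr (Or.inr ⟨hzu, z, hz, hr, Near.refl _ _ (hc.mem_old hz)⟩)
      · refine Or.inr (Or.inr ⟨hzu, p, hp, hup, Near.step _ _ _ _ hn (hc.mem_old hz) ?_⟩)
        exact (hc.keep y h.mem_right z hz hyu hzu).2.1 hr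

end step

section count

variable {W : Type} {G : SimpleGraph V} {T T' : Trigraph V} {u v : V} {π : V → V}

open Classical in
/-- Number of centres of members of `S` within red distance `q` of `X`. -/
noncomputable def cnt (S : Finset W) (c : W → V) (q : ℕ) (T : Trigraph V) (π : V → V) (X : V) :
    ℕ :=
  (S.filter (fun w => Near T q X (π (c w)))).card

theorem cnt_step (hc : IsContr T T' u v) {k : ℕ} (hb : RedBandwidthLE T' k) (S : Finset W)
    (c : W → V) (q b : ℕ) (hcnt : ∀ X ∈ T.verts, cnt S c q T π X ≤ b) (hi : Inv G T π) :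
    ∀ Z ∈ T'.verts, cnt S c q T' (fun z => if π z = v then u else π z) Z ≤ (2 * k + 4) * b := by
  classical
  intro Z hZ
  set N := T'.verts.filter (fun y => T'.red.Adj u y) with hN
  have hNcard : N.card ≤ 2 * k + 1 := by
    refine (Finset.card_le_card ?_).trans ((ball_card hb 1 u).trans_eq (by ring))
    intro y hy
    obtain ⟨hy1, hy2⟩ := Finset.mem_filter.1 hy
    exact Finset.mem_filter.2 ⟨hy1, Near.step 0 u u y (Near.refl _ _ hc.u_mem) hy1 hy2⟩
  let A : V → Finset W := fun X => S.filter (fun w => Near T q X (π (c w)))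
  have hA : ∀ X ∈ T.verts, (A X).card ≤ b := hcnt
  have hsub : S.filter (fun w => Near T' q Z ((fun z => if π z = v then u else π z) (c w))) ⊆
      A Z ∪ (N.biUnion A ∪ (A u ∪ A v)) := by
    intro w hw
    obtain ⟨hwS, hw⟩ := Finset.mem_filter.1 hw
    simp only [Finset.mem_union]
    by_cases h : π (c w) = v
    · exact Or.inr (Or.inr (Or.inr (Finset.mem_filter.2 ⟨hwS, by
        rw [h]; exact Near.refl _ _ hc.hv⟩)))
    · simp only [if_neg h] at hw
      rcases hc.near hw with ⟨_, hn⟩ | hn | ⟨_, p, hp, hup, hn⟩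
      · exact Or.inl (Finset.mem_filter.2 ⟨hwS, hn⟩)
      · exact Or.inr (Or.inr (Or.inl (Finset.mem_filter.2 ⟨hwS, by
          rw [hn]; exact Near.refl _ _ hc.hu⟩)))
      · refine Or.inr (Or.inl (Finset.mem_biUnion.2 ⟨p, Finset.mem_filter.2 ⟨hp, hup⟩, ?_⟩))
        exact Finset.mem_filter.2 ⟨hwS, hn⟩
  have h1 : (N.biUnion A).card ≤ (2 * k + 1) * b := by
    refine (Finset.card_biUnion_le_card_mul N A b ?_).trans (Nat.mul_le_mul_right b hNcard)
    intro p hp
    exact hA p (hc.mem_old (Finset.mem_filter.1 hp).1)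
  have h2 : (A Z).card ≤ b := hA Z (hc.mem_old hZ)
  have h3 : (A u).card ≤ b := hA u hc.hu
  have h4 : (A v).card ≤ b := hA v hc.hv
  unfold cnt
  calc _ ≤ (A Z ∪ (N.biUnion A ∪ (A u ∪ A v))).card := Finset.card_le_card hsub
    _ ≤ (A Z).card + ((N.biUnion A).card + ((A u).card + (A v).card)) := by
        refine (Finset.card_union_le _ _).trans (Nat.add_le_add_left ?_ _)
        refine (Finset.card_union_le _ _).trans (Nat.add_le_add_left ?_ _)
        exact Finset.card_union_le _ _
    _ ≤ b + ((2 * k + 1) * b + (b + b)) := by omega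
    _ = (2 * k + 4) * b := by ring

end count

section bad

variable [Fintype V] {G : SimpleGraph V} {T : Trigraph V} {π : V → V}

open Classical in
/-- The bad vertices at the part `Y`: all of it if it is small, otherwise the vertices joined to it
by black edges. -/
noncomputable def badAt (t : ℕ) (T : Trigraph V) (π : V → V) (Y : V) : Finset V :=
  if (Finset.univ.filter (fun z => π z = Y)).card < t then Finset.univ.filter (fun z => π z = Y)
  else Finset.univ.filter (fun z => T.black.Adj Y (π z))

theorem badAt_card {t : ℕ} (hfree : ∀ A B : Finset V, t ≤ A.card → t ≤ B.card →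
    ¬ ∀ a ∈ A, ∀ b ∈ B, G.Adj a b) (hi : Inv G T π) (Y : V) : (badAt t T π Y).card ≤ t := by
  classical
  unfold badAt
  split_ifs with h
  · convert h.le
  · by_contra hcon
    push Not at h hcon
    refine hfree (Finset.univ.filter (fun z => π z = Y))
      (Finset.univ.filter (fun z => T.black.Adj Y (π z))) (by convert h) (by convert hcon.le) ?_
    intro a ha b hb
    obtain ⟨-, ha⟩ := Finset.mem_filter.1 ha
    obtain ⟨-, hb⟩ := Finset.mem_filter.1 hb
    rw [← ha] at hb
    exact hi.black a b hb

open Classical in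
/-- The bad vertices near `X`. -/
noncomputable def bad (t q : ℕ) (T : Trigraph V) (π : V → V) (X : V) : Finset V :=
  (T.verts.filter (fun Y => Near T (q + q) X Y)).biUnion (badAt t T π)

theorem bad_card {t k : ℕ} (hfree : ∀ A B : Finset V, t ≤ A.card → t ≤ B.card →
    ¬ ∀ a ∈ A, ∀ b ∈ B, G.Adj a b) (hi : Inv G T π) (hb : RedBandwidthLE T k) (q : ℕ) (X : V) :
    (bad t q T π X).card ≤ t * (4 * k * q + 1) := by
  classical
  unfold bad
  refine (Finset.card_biUnion_le_card_mul _ _ t (fun Y _ => badAt_card hfree hi Y)).trans ?_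
  rw [mul_comm]
  refine Nat.mul_le_mul_left t ((ball_card hb (q + q) X).trans_eq (by ring))

/-- A short walk that avoids bad vertices stays near. -/
theorem walk_near {t q : ℕ} (hi : Inv G T π) {X Y : V} (hXY : Near T q X Y) :
    ∀ {a b : V} (p : G.Walk a b) (i : ℕ), Near T i Y (π a) → i + p.length ≤ q →
      (∀ z ∈ p.support, z ∉ bad t q T π X) → Near T (i + p.length) Y (π b) := by
  classical
  intro a b p
  induction p with
  | nil => intro i h _ _; exact h
  | @cons a a' b hadj p ih =>
    intro i h hlen hbad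
    rw [SimpleGraph.Walk.length_cons] at hlen ⊢
    have hstep : Near T (i + 1) Y (π a') := by
      by_cases heq : π a = π a'
      · rw [← heq]
        exact h.succ
      · rcases hi.edge a a' hadj heq with hbl | hred
        · exfalso
          have hnear : Near T (q + q) X (π a) := hXY.trans (h.mono (by omega))
          have hmem : π a ∈ T.verts.filter (fun Y => Near T (q + q) X Y) :=
            Finset.mem_filter.2 ⟨hi.mem a, hnear⟩
          by_cases hs : (Finset.univ.filter (fun z => π z = π a)).card < t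
          · refine hbad a (by simp) (Finset.mem_biUnion.2 ⟨π a, hmem, ?_⟩)
            unfold badAt
            rw [if_pos (by convert hs)]
            simp
          · refine hbad a' (by simp) (Finset.mem_biUnion.2 ⟨π a, hmem, ?_⟩)
            unfold badAt
            rw [if_neg (by convert hs)]
            simpa using hbl
        · exact Near.step _ _ _ _ h (hi.mem a') hred
    have := ih (i + 1) hstep (by omega) (fun z hz => hbad z (by
      rw [SimpleGraph.Walk.support_cons]; exact List.mem_cons_of_mem _ hz))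
    have he : i + 1 + p.length = i + (p.length + 1) := by ring
    rwa [he] at this

end bad

section main

variable [Fintype V] {W : Type} {G : SimpleGraph V} {T : Trigraph V} {π : V → V}

open Classical in
/-- If all members of `S` have large degree inside `S`, then no red ball contains many centres. -/
theorem cnt_le {H : SimpleGraph W} {B : W → Set V} {c : W → V} {r t k M : ℕ}
    (hdisj : ∀ w w', w ≠ w' → Disjoint (B w) (B w'))
    (hcB : ∀ w, c w ∈ B w)
    (hball : ∀ w, ∀ x ∈ B w, ∃ p : G.Walk (c w) x, p.length ≤ r ∧ ∀ z ∈ p.support, z ∈ B w)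
    (hedge : ∀ w w', H.Adj w w' → ∃ x ∈ B w, ∃ y ∈ B w', G.Adj x y)
    (hfree : ∀ A B : Finset V, t ≤ A.card → t ≤ B.card → ¬ ∀ a ∈ A, ∀ b ∈ B, G.Adj a b)
    (hi : Inv G T π) (hb : RedBandwidthLE T k) (S : Finset W) (b : ℕ)
    (hbb : t * (4 * k * (2 * r + 1) + 1) ≤ b)
    (hM : ∀ X ∈ T.verts, cnt S c (2 * r + 1) T π X ≤ M)
    (hdeg : ∀ w ∈ S, M + b < (S.filter (fun w' => H.Adj w w')).card) :
    ∀ X ∈ T.verts, cnt S c (2 * r + 1) T π X ≤ b := by
  intro X hX
  by_contra hcon
  push Not at hcon
  set q := 2 * r + 1 with hq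
  set Bd := bad t q T π X with hBd
  have hBdcard : Bd.card ≤ b := (bad_card hfree hi hb q X).trans hbb
  -- few branch sets contain a bad vertex
  set S2 := S.filter (fun w => ∃ z ∈ B w, z ∈ Bd) with hS2
  have hS2card : S2.card ≤ b := by
    refine le_trans ?_ hBdcard
    have hch : ∀ w : W, ∃ z : V, w ∈ S2 → z ∈ B w ∧ z ∈ Bd := by
      intro w
      by_cases hw : w ∈ S2
      · obtain ⟨z, hz1, hz2⟩ := (Finset.mem_filter.1 hw).2
        exact ⟨z, fun _ => ⟨hz1, hz2⟩⟩
      · exact ⟨c w, fun h => absurd h hw⟩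
    choose g hg using hch
    refine Finset.card_le_card_of_injOn g (fun w hw => (hg w hw).2) ?_
    intro w hw w' hw' he
    by_contra hne
    refine Set.disjoint_left.1 (hdisj w w' hne) (hg w hw).1 ?_
    rw [he]
    exact (hg w' hw').1
  -- a good member near `X`
  obtain ⟨h, hh1, hh2⟩ : ∃ h ∈ S.filter (fun w => Near T q X (π (c w))), h ∉ S2 := by
    by_contra hc'
    push Not at hc'
    have := Finset.card_le_card (fun w hw => hc' w hw)
    unfold cnt at hcon
    omega
  obtain ⟨hhS, hhnear⟩ := Finset.mem_filter.1 hh1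
  have hhgood : ∀ z ∈ B h, z ∉ Bd := by
    intro z hz hz'
    exact hh2 (Finset.mem_filter.2 ⟨hhS, z, hz, hz'⟩)
  have hsub : S.filter (fun w' => H.Adj h w') ⊆
      S.filter (fun w' => Near T q (π (c h)) (π (c w'))) ∪ S2 := by
    intro w' hw'
    obtain ⟨hw'S, hadj⟩ := Finset.mem_filter.1 hw'
    by_cases hw2 : w' ∈ S2
    · exact Finset.mem_union_right _ hw2
    · refine Finset.mem_union_left _ (Finset.mem_filter.2 ⟨hw'S, ?_⟩)
      have hgood' : ∀ z ∈ B w', z ∉ Bd := by
        intro z hz hz'
        exact hw2 (Finset.mem_filter.2 ⟨hw'S, z, hz, hz'⟩)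
      obtain ⟨x, hx, y, hy, hxy⟩ := hedge h w' hadj
      obtain ⟨p1, hp1, hp1s⟩ := hball h x hx
      obtain ⟨p2, hp2, hp2s⟩ := hball w' y hy
      let p : G.Walk (c h) (c w') := p1.append (SimpleGraph.Walk.cons hxy p2.reverse)
      have hlen : p.length ≤ q := by
        simp only [p, SimpleGraph.Walk.length_append, SimpleGraph.Walk.length_cons,
          SimpleGraph.Walk.length_reverse]
        omega
      have hsup : ∀ z ∈ p.support, z ∉ Bd := by
        intro z hz
        simp only [p, SimpleGraph.Walk.mem_support_append_iff, SimpleGraph.Walk.support_cons,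
          SimpleGraph.Walk.support_reverse, List.mem_cons, List.mem_reverse] at hz
        rcases hz with hz | rfl | hz
        · exact hhgood z (hp1s z hz)
        · exact hhgood z hx
        · exact hgood' z (hp2s z hz)
      have := walk_near (t := t) hi hhnear p 0 (Near.refl _ _ (hi.mem _)) (by omega) hsup
      exact this.mono (by omega)
  have h1 := Finset.card_le_card hsub
  have h2 := Finset.card_union_le (S.filter (fun w' => Near T q (π (c h)) (π (c w')))) S2
  have h3 : (S.filter (fun w' => Near T q (π (c h)) (π (c w')))).card ≤ M :=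
    hM (π (c h)) (hi.mem _)
  have h4 := hdeg h hhS
  omega

theorem Reducible.bandwidth {k : ℕ} {T : Trigraph V} (h : Reducible k T) :
    RedBandwidthLE T k := by
  cases h with
  | last T h1 hb => exact hb
  | step T T' hb hc h => exact hb

open Classical in
theorem card_le {H : SimpleGraph W} {B : W → Set V} {c : W → V} {r t k : ℕ}
    (hdisj : ∀ w w', w ≠ w' → Disjoint (B w) (B w'))
    (hcB : ∀ w, c w ∈ B w)
    (hball : ∀ w, ∀ x ∈ B w, ∃ p : G.Walk (c w) x, p.length ≤ r ∧ ∀ z ∈ p.support, z ∈ B w)
    (hedge : ∀ w w', H.Adj w w' → ∃ x ∈ B w, ∃ y ∈ B w', G.Adj x y)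
    (hfree : ∀ A B : Finset V, t ≤ A.card → t ≤ B.card → ¬ ∀ a ∈ A, ∀ b ∈ B, G.Adj a b)
    (S : Finset W) (b : ℕ) (hbb : t * (4 * k * (2 * r + 1) + 1) ≤ b)
    (hdeg : ∀ w ∈ S, (2 * k + 5) * b < (S.filter (fun w' => H.Adj w w')).card)
    (hT : Reducible k T) :
    ∀ π : V → V, Inv G T π → (∀ X ∈ T.verts, cnt S c (2 * r + 1) T π X ≤ b) → S.card ≤ b := by
  induction hT with
  | last T h1 hb =>
    intro π hi hcnt
    rcases S.eq_empty_or_nonempty with rfl | ⟨w, hw⟩
    · simp
    · refine le_trans ?_ (hcnt (π (c w)) (hi.mem _))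
      unfold cnt
      refine Finset.card_le_card ?_
      intro w' hw'
      refine Finset.mem_filter.2 ⟨hw', ?_⟩
      have : π (c w') = π (c w) := Finset.card_le_one.1 h1 _ (hi.mem _) _ (hi.mem _)
      rw [this]
      exact Near.refl _ _ (hi.mem _)
  | step T T' hb hc h ih =>
    intro π hi hcnt
    obtain ⟨u, v, hc⟩ := hc.exists
    have hi' := hc.inv hi
    have hstep := cnt_step hc h.bandwidth S c (2 * r + 1) b hcnt hi
    refine ih _ hi' (cnt_le hdisj hcB hball hedge hfree hi' h.bandwidth S b hbb hstep ?_)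
    intro w hw
    have := hdeg w hw
    have he : (2 * k + 4) * b + b = (2 * k + 5) * b := by ring
    omega

end main

end Pool.Agent.R39.RB
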