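import Mathlib
import Pool.Agent.R39.RB.Defs
import Pool.Agent.R39.RB.Core

/-! From low degree vertices to the edge bound. -/

namespace Pool.Agent.R39.RB

open Finset

open Classical in
theorem sum_deg_le {W : Type} (H : SimpleGraph W) (D : ℕ)
    (h : ∀ S : Finset W, S.Nonempty → ∃ w ∈ S, (S.filter (fun w' => H.Adj w w')).card ≤ D) :
    ∀ (n : ℕ) (S : Finset W), S.card = n →
      ∑ w ∈ S, (S.filter (fun w' => H.Adj w w')).card ≤ 2 * D * n := by
  intro n
  induction n with
  | zero =>
    intro S hS
    rw [Finset.card_eq_zero] at hS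
    subst hS
    simp
  | succ n ih =>
    intro S hS
    obtain ⟨w, hw, hdeg⟩ := h S (Finset.card_pos.1 (by omega))
    have hS' : (S.erase w).card = n := by
      rw [Finset.card_erase_of_mem hw]
      omega
    have hsum : ∑ x ∈ S.erase w, (S.filter (fun w' => H.Adj x w')).card ≤
        ∑ x ∈ S.erase w, (((S.erase w).filter (fun w' => H.Adj x w')).card +
          if H.Adj x w then 1 else 0) := by
      refine Finset.sum_le_sum ?_
      intro x _
      have hsub : S.filter (fun w' => H.Adj x w') ⊆
          (S.erase w).filter (fun w' => H.Adj x w') ∪ (if H.Adj x w then {w} else ∅) := by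
        intro y hy
        obtain ⟨hy1, hy2⟩ := Finset.mem_filter.1 hy
        by_cases hyw : y = w
        · subst hyw
          rw [if_pos hy2]
          simp
        · exact Finset.mem_union_left _ (Finset.mem_filter.2
            ⟨Finset.mem_erase.2 ⟨hyw, hy1⟩, hy2⟩)
      refine (Finset.card_le_card hsub).trans ((Finset.card_union_le _ _).trans ?_)
      refine Nat.add_le_add_left ?_ _
      split_ifs <;> simp
    have hw2 : ∑ x ∈ S.erase w, (if H.Adj x w then 1 else 0) ≤ D := by
      rw [← Finset.card_filter]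
      refine le_trans (Finset.card_le_card ?_) hdeg
      intro y hy
      obtain ⟨hy1, hy2⟩ := Finset.mem_filter.1 hy
      exact Finset.mem_filter.2 ⟨Finset.mem_of_mem_erase hy1, hy2.symm⟩
    have hih := ih (S.erase w) hS'
    rw [← Finset.add_sum_erase S _ hw]
    rw [Finset.sum_add_distrib] at hsum
    have he : 2 * D * (n + 1) = 2 * D * n + D + D := by ring
    omega

theorem edges_le {W : Type} [Fintype W] (H : SimpleGraph W) (D : ℕ)
    (h : ∀ S : Finset W, S.Nonempty → ∃ w ∈ S, Set.ncard {w' | w' ∈ S ∧ H.Adj w w'} ≤ D) :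
    H.edgeSet.ncard ≤ D * Fintype.card W := by
  classical
  have h' : ∀ S : Finset W, S.Nonempty → ∃ w ∈ S,
      (S.filter (fun w' => H.Adj w w')).card ≤ D := by
    intro S hS
    obtain ⟨w, hw, hd⟩ := h S hS
    refine ⟨w, hw, ?_⟩
    rw [← Set.ncard_coe_finset, Finset.coe_filter]
    exact hd
  have h1 := sum_deg_le H D h' (Fintype.card W) Finset.univ rfl
  have h2 := H.sum_degrees_eq_twice_card_edges
  have h3 : ∑ w, (Finset.univ.filter (fun w' => H.Adj w w')).card = ∑ w, H.degree w := by
    refine Finset.sum_congr rfl (fun w _ => ?_)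
    rw [← SimpleGraph.card_neighborFinset_eq_degree, SimpleGraph.neighborFinset_eq_filter]
  have h4 : H.edgeSet.ncard = H.edgeFinset.card := by
    rw [Set.ncard_eq_toFinset_card']
    rfl
  rw [h4]
  rw [h3, h2] at h1
  have he : 2 * D * Fintype.card W = 2 * (D * Fintype.card W) := by ring
  omega

/-- The linear expansion bound for shallow minors. -/
theorem shallow_bound {V : Type} [Fintype V] [DecidableEq V] {W : Type} [Fintype W]
    {G : SimpleGraph V} {H : SimpleGraph W} {t k r : ℕ}
    (hfree : ∀ A B : Finset V, t ≤ A.card → t ≤ B.card → ¬ ∀ a ∈ A, ∀ b ∈ B, G.Adj a b)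
    (hred : Reducible k (ofGraph G)) (hH : IsShallowMinor r G H) :
    H.edgeSet.ncard ≤ (2 * k + 5) * (t * (4 * k * (2 * r + 1) + 1) + 1) * Fintype.card W := by
  classical
  obtain ⟨B, hdisj, hball, hedge⟩ := hH
  choose c hcB hball using hball
  refine edges_le H _ ?_
  intro S hS
  by_contra hcon
  push Not at hcon
  set b := t * (4 * k * (2 * r + 1) + 1) + 1 with hb
  have hdeg : ∀ w ∈ S, (2 * k + 5) * b < (S.filter (fun w' => H.Adj w w')).card := by
    intro w hw
    have := hcon w hw
    rwa [← Finset.coe_filter, Set.ncard_coe_finset] at this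
  have hinv : Inv G (ofGraph G) id :=
    ⟨fun z => Finset.mem_univ _, fun a b h => h, fun a b h _ => Or.inl h⟩
  have hnear : ∀ d x y, Near (ofGraph G) d x y → x = y := by
    intro d x y h
    cases h with
    | refl => rfl
    | step d x y z h hz hr => exact absurd hr (by simp [ofGraph])
  have hcnt : ∀ X ∈ (ofGraph G).verts, cnt S c (2 * r + 1) (ofGraph G) id X ≤ b := by
    intro X _
    unfold cnt
    refine le_trans (b := 1) ?_ (by omega)
    rw [Finset.card_le_one]
    intro w hw w' hw'
    have h1 := hnear _ _ _ (Finset.mem_filter.1 hw).2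
    have h2 := hnear _ _ _ (Finset.mem_filter.1 hw').2
    by_contra hne
    refine Set.disjoint_left.1 (hdisj w w' hne) (hcB w) ?_
    have : c w = c w' := h1.symm.trans h2
    rw [this]
    exact hcB w'
  have hcard := card_le (t := t) (k := k) (r := r) hdisj hcB hball hedge hfree S b (by omega) hdeg
    hred id hinv hcnt
  obtain ⟨w, hw⟩ := hS
  have h1 := hdeg w hw
  have h2 : (S.filter (fun w' => H.Adj w w')).card ≤ S.card := Finset.card_filter_le _ _
  have h3 : b ≤ (2 * k + 5) * b := Nat.le_mul_of_pos_left b (by omega)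
  omega

theorem free_of_bound {V : Type} {G : SimpleGraph V} {s t : ℕ}
    (h : (completeBipartiteGraph (Fin s) (Fin t)).Free G) :
    ∀ A B : Finset V, max s t ≤ A.card → max s t ≤ B.card →
      ¬ ∀ a ∈ A, ∀ b ∈ B, G.Adj a b := by
  intro A B hA hB hAB
  apply h
  obtain ⟨A', hA', hA'c⟩ := Finset.exists_subset_card_eq ((le_max_left s t).trans hA)
  obtain ⟨B', hB', hB'c⟩ := Finset.exists_subset_card_eq ((le_max_right s t).trans hB)
  rw [SimpleGraph.completeBipartiteGraph_isContained_iff]
  refine ⟨A', B', by simpa using hA'c, by simpa using hB'c, ?_⟩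
  intro a ha b hb
  exact hAB a (hA' ha) b (hB' hb)

/-- The constant of the linear bound. -/
theorem const_le (k t r : ℕ) : (2 * k + 5) * (t * (4 * k * (2 * r + 1) + 1) + 1) ≤
    (2 * k + 5) * (t * (8 * k + 1) + 1) * (r + 1) := by
  have h1 : t * (4 * k * (2 * r + 1) + 1) ≤ t * ((8 * k + 1) * (r + 1)) := by
    refine Nat.mul_le_mul_left _ ?_
    nlinarith [Nat.zero_le (k * r), Nat.zero_le k, Nat.zero_le r]
  have h2 : t * (4 * k * (2 * r + 1) + 1) + 1 ≤ (t * (8 * k + 1) + 1) * (r + 1) := by
    calc t * (4 * k * (2 * r + 1) + 1) + 1 ≤ t * ((8 * k + 1) * (r + 1)) + (r + 1) := by omega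
      _ = (t * (8 * k + 1) + 1) * (r + 1) := by ring
  calc (2 * k + 5) * (t * (4 * k * (2 * r + 1) + 1) + 1)
      ≤ (2 * k + 5) * ((t * (8 * k + 1) + 1) * (r + 1)) := Nat.mul_le_mul_left _ h2
    _ = (2 * k + 5) * (t * (8 * k + 1) + 1) * (r + 1) := by ring

end Pool.Agent.R39.RB
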